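import Mathlib

namespace Pool.Agent.H.MP_57cfa6_lc

open CategoryTheory Limits MonoidalCategory

/-- A many-sorted algebraic signature. -/
structure Sig where
  Srt : Type
  Fn : Type
  dom : Fn → List Srt
  cod : Fn → Srt

variable {L : Sig}

/-- Variables of a context (de Bruijn indices); the head of the list is the last variable. -/
inductive Var {S : Type} : List S → S → Type
  | zero {Γ : List S} {A : S} : Var (A :: Γ) A
  | succ {Γ : List S} {A B : S} : Var Γ B → Var (A :: Γ) B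

inductive Term (L : Sig) (Γ : List L.Srt) : L.Srt → Type
  | var {A : L.Srt} : Var Γ A → Term L Γ A
  | app (f : L.Fn) : (∀ B, Var (L.dom f) B → Term L Γ B) → Term L Γ (L.cod f)

inductive Form (L : Sig) : List L.Srt → Type
  | top {Γ} : Form L Γ
  | bot {Γ} : Form L Γ
  | eq {Γ A} : Term L Γ A → Term L Γ A → Form L Γ
  | and {Γ} : Form L Γ → Form L Γ → Form L Γ
  | or {Γ} : Form L Γ → Form L Γ → Form L Γ
  | imp {Γ} : Form L Γ → Form L Γ → Form L Γ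
  | all {Γ} (A : L.Srt) : Form L (A :: Γ) → Form L Γ
  | ex {Γ} (A : L.Srt) : Form L (A :: Γ) → Form L Γ

/-- Substitutions: a term in context `Γ` for each variable of `Δ`. -/
abbrev Sub (L : Sig) (Δ Γ : List L.Srt) : Type := ∀ B, Var Δ B → Term L Γ B

def Term.subst {Δ Γ : List L.Srt} (s : Sub L Δ Γ) : ∀ {A}, Term L Δ A → Term L Γ A
  | _, .var v => s _ v
  | _, .app f ts => .app f fun B v => (ts B v).subst s

/-- Weakening by one variable. -/
def wk {Γ : List L.Srt} (A : L.Srt) : Sub L Γ (A :: Γ) := fun _ v => .var v.succ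

/-- Extend a substitution by a term for the last variable. -/
def Sub.cons {Δ Γ : List L.Srt} {A : L.Srt} (t : Term L Γ A) (s : Sub L Δ Γ) : Sub L (A :: Δ) Γ
  | _, .zero => t
  | _, .succ v => s _ v

def Form.subst : ∀ {Δ Γ : List L.Srt}, Sub L Δ Γ → Form L Δ → Form L Γ
  | _, _, _, .top => .top
  | _, _, _, .bot => .bot
  | _, _, s, .eq t u => .eq (t.subst s) (u.subst s)
  | _, _, s, .and φ ψ => .and (φ.subst s) (ψ.subst s)
  | _, _, s, .or φ ψ => .or (φ.subst s) (ψ.subst s)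
  | _, _, s, .imp φ ψ => .imp (φ.subst s) (ψ.subst s)
  | _, _, s, .all A φ => .all A (φ.subst (Sub.cons (.var .zero) fun B v => (s B v).subst (wk A)))
  | _, _, s, .ex A φ => .ex A (φ.subst (Sub.cons (.var .zero) fun B v => (s B v).subst (wk A)))

/-- Substitute `t` for the last variable. -/
def Form.inst {Γ : List L.Srt} {A : L.Srt} (φ : Form L (A :: Γ)) (t : Term L Γ A) : Form L Γ :=
  φ.subst (Sub.cons t fun _ v => .var v)

/-- Intuitionistic natural deduction in context, with equality. -/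
inductive Prf (L : Sig) : (Γ : List L.Srt) → List (Form L Γ) → Form L Γ → Prop
  | hyp {Γ Φ φ} : φ ∈ Φ → Prf L Γ Φ φ
  | topI {Γ Φ} : Prf L Γ Φ .top
  | botE {Γ Φ φ} : Prf L Γ Φ .bot → Prf L Γ Φ φ
  | andI {Γ Φ φ ψ} : Prf L Γ Φ φ → Prf L Γ Φ ψ → Prf L Γ Φ (.and φ ψ)
  | andE₁ {Γ Φ φ ψ} : Prf L Γ Φ (.and φ ψ) → Prf L Γ Φ φ
  | andE₂ {Γ Φ φ ψ} : Prf L Γ Φ (.and φ ψ) → Prf L Γ Φ ψ
  | orI₁ {Γ Φ φ ψ} : Prf L Γ Φ φ → Prf L Γ Φ (.or φ ψ)
  | orI₂ {Γ Φ φ ψ} : Prf L Γ Φ ψ → Prf L Γ Φ (.or φ ψ)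
  | orE {Γ Φ φ ψ χ} : Prf L Γ Φ (.or φ ψ) → Prf L Γ (φ :: Φ) χ → Prf L Γ (ψ :: Φ) χ → Prf L Γ Φ χ
  | impI {Γ Φ φ ψ} : Prf L Γ (φ :: Φ) ψ → Prf L Γ Φ (.imp φ ψ)
  | impE {Γ Φ φ ψ} : Prf L Γ Φ (.imp φ ψ) → Prf L Γ Φ φ → Prf L Γ Φ ψ
  | allI {Γ Φ A φ} : Prf L (A :: Γ) (Φ.map (Form.subst (wk A))) φ → Prf L Γ Φ (.all A φ)
  | allE {Γ Φ A φ} (t : Term L Γ A) : Prf L Γ Φ (.all A φ) → Prf L Γ Φ (φ.inst t)
  | exI {Γ Φ A φ} (t : Term L Γ A) : Prf L Γ Φ (Form.inst φ t) → Prf L Γ Φ (.ex A φ)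
  | exE {Γ Φ A φ χ} : Prf L Γ Φ (.ex A φ) →
      Prf L (A :: Γ) (φ :: Φ.map (Form.subst (wk A))) (χ.subst (wk A)) → Prf L Γ Φ χ
  | eqI {Γ Φ A} (t : Term L Γ A) : Prf L Γ Φ (.eq t t)
  | eqE {Γ Φ A} (φ : Form L (A :: Γ)) (s t : Term L Γ A) :
      Prf L Γ Φ (.eq s t) → Prf L Γ Φ (φ.inst s) → Prf L Γ Φ (φ.inst t)

/-- The product of the simplicial sets of the sorts of a context. -/
def ctx {S : Type} (X : S → SSet.{0}) : List S → SSet.{0}
  | [] => 𝟙_ SSet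
  | A :: Γ => ctx X Γ ⊗ X A

def proj {S : Type} (X : S → SSet.{0}) : ∀ {Γ : List S} {A : S}, Var Γ A → (ctx X Γ ⟶ X A)
  | _, _, .zero => CartesianMonoidalCategory.snd _ _
  | _, _, .succ v => CartesianMonoidalCategory.fst _ _ ≫ proj X v

def tuple {S : Type} (X : S → SSet.{0}) {T : SSet.{0}} :
    ∀ Γ : List S, (∀ B, Var Γ B → (T ⟶ X B)) → (T ⟶ ctx X Γ)
  | [], _ => CartesianMonoidalCategory.toUnit T
  | A :: Γ, g => CartesianMonoidalCategory.lift (tuple X Γ fun B v => g B v.succ) (g A .zero)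

/-- A structure in Kan complexes. -/
structure Str (L : Sig) where
  obj : L.Srt → SSet.{0}
  kan : ∀ A, (obj A).KanComplex
  map : ∀ f, ctx obj (L.dom f) ⟶ obj (L.cod f)

def Term.val (M : Str L) {Γ : List L.Srt} : ∀ {A}, Term L Γ A → (ctx M.obj Γ ⟶ M.obj A)
  | _, .var v => proj M.obj v
  | _, .app f ts => tuple M.obj _ (fun B v => (ts B v).val M) ≫ M.map f

open Simplicial in
/-- The path space `Hom(Δ[1], X)` with its two endpoint maps. -/
noncomputable def pathSpace (X : SSet.{0}) : Over (X ⊗ X) :=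
  Over.mk (Y := (ihom Δ[1]).obj X) (CartesianMonoidalCategory.lift
    (SSet.ι₀ ≫ (β_ _ _).hom ≫ (ihom.ev Δ[1]).app X) (SSet.ι₁ ≫ (β_ _ _).hom ≫ (ihom.ev Δ[1]).app X))

/-- A choice of exponentials in the slices and of right adjoints to pullback. -/
structure LCC where
  exp : ∀ {X : SSet.{0}}, Over X → Over X ⥤ Over X
  expAdj : ∀ {X : SSet.{0}} (P : Over X), prod.functor.obj P ⊣ exp P
  pi : ∀ {X Y : SSet.{0}}, (Y ⟶ X) → Over Y ⥤ Over X
  piAdj : ∀ {X Y : SSet.{0}} (f : Y ⟶ X), Over.pullback f ⊣ pi f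

/-- The homotopical interpretation. -/
noncomputable def Form.interp (E : LCC) (M : Str L) : ∀ {Γ}, Form L Γ → Over (ctx M.obj Γ)
  | _, .top => Over.mk (𝟙 _)
  | _, .bot => Over.mk (initial.to _)
  | _, .eq s t => (Over.pullback (CartesianMonoidalCategory.lift (s.val M) (t.val M))).obj
      (pathSpace _)
  | _, .and φ ψ => φ.interp E M ⨯ ψ.interp E M
  | _, .or φ ψ => φ.interp E M ⨿ ψ.interp E M
  | _, .imp φ ψ => (E.exp (φ.interp E M)).obj (ψ.interp E M)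
  | _, .all _ φ => (E.pi (CartesianMonoidalCategory.fst _ _)).obj (φ.interp E M)
  | _, .ex _ φ => (Over.map (CartesianMonoidalCategory.fst _ _)).obj (φ.interp E M)

end Pool.Agent.H.MP_57cfa6_lc
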