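import Mathlib
import Pool.Agent.H.MP_57cfa6_lc.Defs

namespace Pool.Agent.H.MP_57cfa6_lc

open CategoryTheory Limits MonoidalCategory

theorem exp_left {X : SSet.{0}} (P : Over X) : (prod.functor.obj P).IsLeftAdjoint := by
  let := Over.cartesianMonoidalCategory X
  let : MonoidalClosed (Over X) :=
    cartesianClosedOfEquiv (overEquivPresheafCostructuredArrow X).symm
  exact ⟨_, ⟨(ihom.adjunction P).ofNatIsoLeft (CartesianMonoidalCategory.tensorLeftIsoProd P)⟩⟩

theorem pi_left {X Y : SSet.{0}} (f : Y ⟶ X) : (Over.pullback f).IsLeftAdjoint := by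
  let : ChosenPullbacks SSet.{0} := fun f => ChosenPullbacksAlong.ofHasPullbacksAlong f
  let := ChosenPullbacksAlong.cartesianMonoidalCategoryOver X
  let : MonoidalClosed (Over X) :=
    cartesianClosedOfEquiv (overEquivPresheafCostructuredArrow X).symm
  let : BraidedCategory (Over X) := .ofCartesianMonoidalCategory
  let := ChosenPullbacksAlong.ofHasPullbacksAlong (curryRightUnitorHom (Over.mk f))
  exact ⟨_, ⟨((Over.toOverSectionsAdj (Over.mk f)).comp
    (Over.mk f).iteratedSliceEquiv.toAdjunction).ofNatIsoLeft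
      (toOverIteratedSliceForwardIsoPullback f)⟩⟩

theorem lcc : Nonempty LCC :=
  ⟨{ exp := fun P => (exp_left P).exists_rightAdjoint.choose
     expAdj := fun P => (exp_left P).exists_rightAdjoint.choose_spec.some
     pi := fun f => (pi_left f).exists_rightAdjoint.choose
     piAdj := fun f => (pi_left f).exists_rightAdjoint.choose_spec.some }⟩

theorem lem {L : Sig} (E : LCC) (M : Str L) (φ : Form L []) :
    ∃ n, Nonempty (((Form.or φ (.imp φ .bot)).interp E M).left.obj n) := by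
  by_cases h : ∃ n, Nonempty ((φ.interp E M).left.obj n)
  · obtain ⟨n, ⟨x⟩⟩ := h
    exact ⟨n, ⟨(coprod.inl (X := φ.interp E M)
      (Y := (Form.imp φ .bot).interp E M)).left.app n x⟩⟩
  · push Not at h
    let T : Over (ctx M.obj []) := Over.mk (𝟙 _)
    have he : ∀ n, IsEmpty ((φ.interp E M ⨯ T).left.obj n) := fun n =>
      ⟨fun x => (h n).false ((prod.fst (X := φ.interp E M) (Y := T)).left.app n x)⟩
    let g : φ.interp E M ⨯ T ⟶ (Form.bot : Form L []).interp E M :=
      Over.homMk ⟨fun n => TypeCat.ofHom fun x => ((he n).false x).elim, fun n m _ => by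
        ext x; exact ((he n).false x).elim⟩ (by
          ext n x; exact ((he n).false x).elim)
    let k := (E.expAdj (φ.interp E M)).homEquiv T _ g
    exact ⟨Opposite.op (SimplexCategory.mk 0), ⟨(coprod.inr (X := φ.interp E M)
      (Y := (Form.imp φ .bot).interp E M)).left.app _ (k.left.app _ PUnit.unit)⟩⟩

/-- one sort, two constants -/
def L0 : Sig := ⟨Unit, Bool, fun _ => [], fun _ => ()⟩

abbrev Env (Γ : List L0.Srt) : Type := ∀ B, Var Γ B → Bool

def Env.cons {Γ : List L0.Srt} {A : L0.Srt} (d : Bool) (ρ : Env Γ) : Env (A :: Γ)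
  | _, .zero => d
  | _, .succ v => ρ _ v

def tv {Γ : List L0.Srt} (ρ : Env Γ) : ∀ {A}, Term L0 Γ A → Bool
  | _, .var v => ρ _ v
  | _, .app f _ => f

def force : ∀ {Γ : List L0.Srt}, Form L0 Γ → Bool → Env Γ → Prop
  | _, .top, _, _ => True
  | _, .bot, _, _ => False
  | _, .eq s t, w, ρ => w = true ∨ tv ρ s = tv ρ t
  | _, .and φ ψ, w, ρ => force φ w ρ ∧ force ψ w ρ
  | _, .or φ ψ, w, ρ => force φ w ρ ∨ force ψ w ρ
  | _, .imp φ ψ, w, ρ => (force φ w ρ → force ψ w ρ) ∧ (force φ true ρ → force ψ true ρ)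
  | _, .all _ φ, w, ρ => ∀ d, force φ w (ρ.cons d)
  | _, .ex _ φ, w, ρ => ∃ d, force φ w (ρ.cons d)

theorem force_up {Γ : List L0.Srt} (φ : Form L0 Γ) (w : Bool) (ρ : Env Γ) :
    force φ w ρ → force φ true ρ := by
  induction φ with
  | top => exact id
  | bot => exact id
  | eq s t => exact fun _ => Or.inl rfl
  | and φ ψ a b => exact And.imp (a ρ) (b ρ)
  | or φ ψ a b => exact Or.imp (a ρ) (b ρ)
  | imp φ ψ _ _ => exact fun h => ⟨h.2, h.2⟩
  | all A φ a => exact fun h d => a _ (h d)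
  | ex A φ a => exact fun ⟨d, h⟩ => ⟨d, a _ h⟩

theorem force_top {Γ : List L0.Srt} (φ : Form L0 Γ) (ρ ρ' : Env Γ) :
    force φ true ρ ↔ force φ true ρ' := by
  induction φ with
  | top => rfl
  | bot => rfl
  | eq s t => exact iff_of_true (Or.inl rfl) (Or.inl rfl)
  | and φ ψ a b => exact and_congr (a ρ ρ') (b ρ ρ')
  | or φ ψ a b => exact or_congr (a ρ ρ') (b ρ ρ')
  | imp φ ψ a b => exact and_congr (imp_congr (a ρ ρ') (b ρ ρ')) (imp_congr (a ρ ρ') (b ρ ρ'))
  | all A φ a => exact forall_congr' fun d => a _ _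
  | ex A φ a => exact exists_congr fun d => a _ _

theorem tv_subst {Δ Γ : List L0.Srt} (s : Sub L0 Δ Γ) (ρ : Env Γ) {A} (t : Term L0 Δ A) :
    tv ρ (t.subst s) = tv (fun B v => tv ρ (s B v)) t := by
  cases t <;> rfl

theorem env_lift {Δ Γ : List L0.Srt} (s : Sub L0 Δ Γ) (ρ : Env Γ) (A : L0.Srt) (d : Bool) :
    (fun B v => tv (ρ.cons d) (Sub.cons (A := A) (.var .zero)
      (fun B v => (s B v).subst (wk A)) B v)) = Env.cons d fun B v => tv ρ (s B v) := by
  funext B v
  cases v with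
  | zero => rfl
  | succ v => exact tv_subst _ _ _

theorem force_subst {Δ : List L0.Srt} (φ : Form L0 Δ) : ∀ {Γ : List L0.Srt} (s : Sub L0 Δ Γ)
    (w : Bool) (ρ : Env Γ), force (φ.subst s) w ρ ↔ force φ w fun B v => tv ρ (s B v) := by
  induction φ with
  | top => exact fun _ _ _ => Iff.rfl
  | bot => exact fun _ _ _ => Iff.rfl
  | eq s t => intro Γ u w ρ; simp only [Form.subst, force, tv_subst]
  | and φ ψ a b => intro Γ u w ρ; simp only [Form.subst, force, a, b]
  | or φ ψ a b => intro Γ u w ρ; simp only [Form.subst, force, a, b]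
  | imp φ ψ a b => intro Γ u w ρ; simp only [Form.subst, force, a, b]
  | all A φ a => intro Γ u w ρ; simp only [Form.subst, force, a, env_lift]
  | ex A φ a => intro Γ u w ρ; simp only [Form.subst, force, a, env_lift]

theorem force_wk {Γ : List L0.Srt} (φ : Form L0 Γ) (A : L0.Srt) (w d : Bool) (ρ : Env Γ) :
    force (φ.subst (wk A)) w (ρ.cons d) ↔ force φ w ρ := force_subst φ _ _ _

theorem force_inst {Γ : List L0.Srt} {A : L0.Srt} (φ : Form L0 (A :: Γ)) (t : Term L0 Γ A)
    (w : Bool) (ρ : Env Γ) : force (φ.inst t) w ρ ↔ force φ w (ρ.cons (tv ρ t)) := by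
  rw [Form.inst, force_subst]
  refine iff_of_eq (congrArg _ ?_)
  funext B v
  cases v <;> rfl

theorem sound {Γ : List L0.Srt} {Φ : List (Form L0 Γ)} {φ : Form L0 Γ} (h : Prf L0 Γ Φ φ) :
    ∀ w ρ, (∀ ψ ∈ Φ, force ψ w ρ) → force φ w ρ := by
  have cons : ∀ {Γ : List L0.Srt} {Φ : List (Form L0 Γ)} {φ : Form L0 Γ} {w ρ}, force φ w ρ →
      (∀ ψ ∈ Φ, force ψ w ρ) → ∀ ψ ∈ φ :: Φ, force ψ w ρ :=
    fun h1 h2 => List.forall_mem_cons.2 ⟨h1, h2⟩
  have wkn : ∀ {Γ : List L0.Srt} {Φ : List (Form L0 Γ)} {A w ρ} d, (∀ ψ ∈ Φ, force ψ w ρ) →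
      ∀ ψ ∈ Φ.map (Form.subst (wk A)), force ψ w (Env.cons d ρ) :=
    fun d h => List.forall_mem_map.2 fun ψ hψ => (force_wk _ _ _ _ _).2 (h ψ hψ)
  induction h with
  | hyp h => exact fun w ρ H => H _ h
  | topI => exact fun _ _ _ => trivial
  | botE _ a => exact fun w ρ H => (a w ρ H).elim
  | andI _ _ a b => exact fun w ρ H => ⟨a w ρ H, b w ρ H⟩
  | andE₁ _ a => exact fun w ρ H => (a w ρ H).1
  | andE₂ _ a => exact fun w ρ H => (a w ρ H).2
  | orI₁ _ a => exact fun w ρ H => Or.inl (a w ρ H)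
  | orI₂ _ a => exact fun w ρ H => Or.inr (a w ρ H)
  | orE _ _ _ a b c =>
    exact fun w ρ H => (a w ρ H).elim (fun h => b w ρ (cons h H)) fun h => c w ρ (cons h H)
  | impI _ a =>
    exact fun w ρ H => ⟨fun h => a w ρ (cons h H),
      fun h => a true ρ (cons h fun ψ hψ => force_up _ _ _ (H ψ hψ))⟩
  | impE _ _ a b => exact fun w ρ H => (a w ρ H).1 (b w ρ H)
  | allI _ a => exact fun w ρ H d => a w _ (wkn d H)
  | allE t _ a => exact fun w ρ H => (force_inst _ _ _ _).2 (a w ρ H _)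
  | exI t _ a => exact fun w ρ H => ⟨_, (force_inst _ _ _ _).1 (a w ρ H)⟩
  | exE _ _ a b =>
    intro w ρ H
    obtain ⟨d, hd⟩ := a w ρ H
    exact (force_wk _ _ _ _ _).1 (b w _ (cons hd (wkn d H)))
  | eqI t => exact fun _ _ _ => Or.inr rfl
  | eqE φ s t _ _ a b =>
    intro w ρ H
    have := b w ρ H
    rw [force_inst] at this ⊢
    rcases a w ρ H with rfl | e
    · exact (force_top _ _ _).1 this
    · exact e ▸ this

def c (b : Bool) : Term L0 [] () := .app (L := L0) b fun _ v => nomatch v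

def phi : Form L0 [] := .or (.eq (c false) (c true)) (.imp (.eq (c false) (c true)) .bot)

theorem unprov : ¬ Prf L0 [] [] phi := by
  intro h
  rcases sound h false (fun _ v => nomatch v) (by simp) with (h | h) | h
  · cases h
  · cases h
  · exact h.2 (Or.inl rfl)

end Pool.Agent.H.MP_57cfa6_lc
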